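import Pool.Agent.N520.HDefs
import Pool.Agent.N520.HFinal

/-!
# MP_f72ae4_gt, Q1: the symplectic Hadamard theorem

Let `σ` be a symplectic form on the manifold `ℝ^{2n}` and `J` a `σ`-compatible almost complex
structure (not assumed integrable) such that the metric `g_J = σ(·, J ·)` is complete and has
nonpositive sectional curvature.  Then `(ℝ^{2n}, σ)` is symplectomorphic to `(ℝ^{2n}, σ_0)`.

Idea.  Let `ξ` be the gradient of `r^2 / 2`, `r` the distance to a point.  For every vector field
`ξ` one has the identity `(L_ξ σ)(v, J v) = (1/2) ((L_ξ g)(v, v) + (L_ξ g)(J v, J v))`, whether or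
not `J` is integrable, and `L_ξ g = 2 Hess (r^2 / 2) ≥ 2 g` in nonpositive curvature.  Hence the
exact form `L_ξ σ = d (ι_ξ σ)` tames `J`, so that Moser's method deforms `σ` into it; its Liouville
field is gradient-like for `r^2`, which identifies it with the standard form.  The exponential
map, the Gauss lemma, the comparison of Jacobi fields and the bijectivity of the exponential map
are all proved in the files `HGeo`, `HExp`, `HCover`.
-/

set_option autoImplicit false

open scoped ContDiff
open Pool.Agent.N520 Pool.Agent.N520.Had

namespace Pool.Agent.Results.MP_f72ae4_gt.Hadamard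

/-- Let `W` be a real vector space of dimension `2n`, i.e. `ℝ^{2n}` up to a linear change of
coordinates.  If the symplectic form `σ` on the manifold `W` admits a compatible almost complex
structure `J` for which the metric `g_J` is complete and has nonpositive sectional curvature, then
there is a diffeomorphism `φ : W → ℝ^{2n}` with `φ^* σ_0 = σ`, `σ_0 = ∑ dx_i ∧ dy_i`. -/
theorem result (n : ℕ) {W : Type} [NormedAddCommGroup W] [NormedSpace ℝ W]
    [FiniteDimensional ℝ W] (hW : Module.finrank ℝ W = 2 * n)
    (σ : W → LinearMap.BilinForm ℝ W) (J : W → W →ₗ[ℝ] W)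
    (hσ : IsSymplecticForm σ) (hJ : IsCompatible σ J)
    (hcomplete : IsGeodesicallyComplete (metric σ J))
    (hcurvature : ∀ x u v, sectional (metric σ J) x u v ≤ 0) :
    ∃ φ : W ≃ V n, ContDiff ℝ ∞ φ ∧ ContDiff ℝ ∞ φ.symm ∧
      ∀ x u v, omega (fderiv ℝ φ x u) (fderiv ℝ φ x v) = σ x u v :=
  main' n hW hσ hJ hcomplete hcurvature

end Pool.Agent.Results.MP_f72ae4_gt.Hadamard
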